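import Pool.Agent.H38.ER.Link2

open Pool.Agent.H38.NP Pool.Agent.H38.ER

theorem Pool.Agent.Results.MP_f9087f_lc.Hard.result (d : ℕ) (hd : 3 ≤ d) :
    ERHardOn (fun _ : ℕ × List (ℕ × ℕ) => True) fun p =>
      ∃ x : Fin p.1 → EuclideanSpace ℝ (Fin d),
        ∀ u v, (graphOf p.1 p.2).Adj u v → dist (x u) (x v) = 1 :=
  ((lk_erh u3_erh d hd).mono (C' := fun _ => True) fun _ _ =>
    ⟨trivial, fun ⟨x, _, h⟩ => ⟨x, h⟩, fun ⟨x, h⟩ => ⟨x, False.elim, h⟩⟩).hardOn
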